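import Pool.Agent.H.MP_bced1d_lc.D

set_option autoImplicit false

namespace Pool.Agent.Results.MP_bced1d_lc.No

open Pool.Agent.H.MP_1220fe_lc Pool.Agent.H.MP_bced1d_lc Pool.Agent.Lib.helper21.PR Encodable

attribute [local irreducible] Primrec Computable

theorem result : ∃ (G : Type) (_ : Group G) (r : ℕ) (gens : Fin r → G), Infinite G ∧
    Subgroup.closure (Set.range gens) = ⊤ ∧
    REPred (fun w : List (Fin r × Bool) =>
      (w.map fun p => cond p.2 (gens p.1) (gens p.1)⁻¹).prod = 1) ∧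
    ∃ (k l : ℕ) (F : List (Finset G × (G → Fin k))) (f : Fin k → Fin l), (Sft F).Nonempty ∧
      ∀ (k' : ℕ) (F' : List (Finset G × (G → Fin k'))),
        ¬ (red (hat gens '' ((f ∘ ·) '' Sft F)) (hat gens '' Sft F') ∧
          red (hat gens '' Sft F') (hat gens '' ((f ∘ ·) '' Sft F))) := by
  obtain ⟨ζ, h1, h2⟩ := zeta (X := XF) fun w ⟨p, _, e⟩ => e ▸ wt_E rfl ..
  obtain ⟨B, h3, h4⟩ := avoid
  let e := Finite.equivFin Al
  obtain ⟨F, h5⟩ := sft_rel (gn (Rl XF)) fun i a b => Ru i (e.symm a) (e.symm b)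
  have h6 : ∀ d ∈ Bu q B, ∃ x ∈ Sft F, ∀ g, (e.symm (x g)).1 = zd d (ζ g) := fun d hd =>
    let ⟨x, a, b⟩ := lift_ex h1 h2 _ (h4 d hd)
    ⟨fun g => e (x g), by simpa [h5] using a, by simpa using b⟩
  obtain ⟨d, hd⟩ := bu_ne h3
  refine ⟨G (Rl XF), inferInstance, 61, gn _, .of_injective _ (aw_inj (j := 1) (z := fun m => zd d m)
    fun w ⟨p, k1, k2⟩ => ?_), clos, wp_re (rl_re xf_re), _, 2, F, fun a => (e.symm a).1,
      (h6 d hd).imp fun _ h => h.1, fun k' F' ⟨a, b⟩ => ?_⟩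
  · rw [k2, md, ml_E _ _ _ en2 (σ := sh 1) (σ' := sh (-1)) (by simp [ml]) (by simp [ml]) (sh_mul 1),
      vl_occ _ _ k1.lt, op_zero fun a => h4 d hd p k1 _, el_zero]
  obtain ⟨g, g1, g2⟩ := zd_tt
  refine rigid (X := XF) (by unfold q; fun_prop) h3 (b.trans (red_tt g1 fun d hd => ?_)) ?_
  · obtain ⟨x, b1, b2⟩ := h6 d hd
    refine ⟨_, ⟨x, b1, rfl⟩, funext fun n => ?_⟩
    simp only [g2, hat, ev_eq, Function.comp, b2, h2]
  rintro _ ⟨x, hx, rfl⟩
  refine ⟨k', x, rfl, fun h => ?_⟩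
  obtain ⟨y, b1, b2⟩ := per h1 h2 hx h
  obtain ⟨_, ⟨_, ⟨x, b3, rfl⟩, rfl⟩, b4⟩ := a.comp ⟨y, b1, rfl⟩ b2
  rw [h5] at b3
  have b5 := inv_zeta (ru_inv (x := fun g => e.symm (x g)) b3) h2
  let ξ : ℤ → ℕ := fun m => (e.symm (x (gn _ 60 ^ m))).1
  obtain ⟨c, hc⟩ := Nat.Partrec.Code.exists_code.1 (Partrec.nat_iff.1 (b4.comp (Primrec.to_comp
    (f := fun n => encode (List.replicate n ((60 : Fin 61), true))) (by fun_prop))).partrec)
  have b6 : Pt ((List.range (q (encode c))).map fun i : ℕ => ξ i) := by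
    refine ⟨encode c, by simp, fun i hi => ?_⟩
    rw [List.length_map] at hi
    simp only [Ev, Denumerable.ofNat_encode, hc, hat_enc, Function.comp, b5 (mk _ _), h2]
    simp [List.length_range ▸ hi, ξ, wt, Fin.is_le]
  generalize hp : (List.range (q (encode c))).map (fun i : ℕ => ξ i) = p at b6
  have b7 := (hol (x := fun g => e.symm (x g)) b3 h1 h2 (ξ := ξ) (fun g => congrArg _ (b5 g)) 0
    (0 + p.length) p b6.lt).2 1
  rw [show mk (Rl XF) (Pool.Agent.H.MP_1220fe_lc.F _ _ 0 (0 + p.length) p).2 = 1 from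
    mk_rel (R := Rl XF) (.inl ⟨_, b6, rfl⟩), if_pos (occ_iff.2 fun i hi => by
      subst hp
      simp [show ζ 1 = 0 from h2 [], List.length_range ▸ List.length_map _ ▸ hi]), mul_one,
    eq_comm, (Units.isUnit _).mul_eq_left] at b7
  rw [el, add_eq_left] at b7
  simpa using congrFun₂ b7 (rw 0 (0 + p.length + p.length)) (0 : ℕ)

end Pool.Agent.Results.MP_bced1d_lc.No
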